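import Pool.Agent.H90.SCD.NEG

/-!
Module D4: finiteness of the spaces `H(φ)`.
-/

set_option autoImplicit false

namespace Pool.Agent.H90.SCD

open SC

lemma Hs_congr {k K : Type} [Field k] [Field K] [Algebra k K] {φ ψ : List (ℤ × Sys K)}
    (h : ∀ v : DV k K, v.val φ = v.val ψ) : Hs k φ = Hs k ψ := by
  ext g
  change (∀ v : DV k K, g = 0 ∨ v.val φ ≤ v.ord g) ↔ (∀ v : DV k K, g = 0 ∨ v.val ψ ≤ v.ord g)
  simp only [h]

lemma Hs_succ {k K : Type} [Field k] [Field K] [Algebra k K] (s : Sys K)
    (φ : List (ℤ × Sys K)) (j : ℕ) :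
    Hs k ((-1, s) :: (-(j : ℤ), s) :: φ) = Hs k ((-((j + 1 : ℕ) : ℤ), s) :: φ) := by
  apply Hs_congr
  intro v
  rw [val_cons, val_cons, val_cons]
  push_cast
  ring

theorem d4 (d3 : T_D3) (hneg : T_NEG) (exg : T_EXG) (stp : T_STP) (g1a : T_G1a) (pos : T_POS) :
    T_D4 := by
  have key : ∀ d : ℕ, ∀ (k K : Type) [Field k] [CharZero k] [Field K] [Algebra k K]
      [Algebra.EssFiniteType k K], Algebra.trdeg k K = d → ∀ φ : List (ℤ × Sys K), Nzl φ →
      Module.Finite k (Hs k φ) := by
    intro d
    induction d with
    | zero =>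
      intro k K _ _ _ _ _ htr φ _
      rw [Nat.cast_zero, trdeg_eq_zero_iff] at htr
      have : Module.Finite k K := Algebra.finite_of_essFiniteType_of_isAlgebraic
      infer_instance
    | succ d ih =>
      intro k K _ _ _ _ _ htr φ hφ
      obtain ⟨s, -, hsN, hsG⟩ := exg k K
      have hU := g1a K Unit (fun _ : Unit => s) fun _ => hsN
      obtain ⟨hind, hch, hess, htr', hup, -, -⟩ :=
        stp k K (Gen fun _ : Unit => s) d s (genU fun _ : Unit => s) htr hsN hsG hU
      -- the degree becomes negative
      set S : Fin d → Sys K := fun _ => s with hS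
      have hI : (Idx (Sum.elim (fun _ : Unit => s) S) k : ℤ) ≥ 1 := by
        have := pos k K (Unit ⊕ Fin d) (Sum.elim (fun _ : Unit => s) S)
          (by rintro (j | j) <;> exact hsN)
          (by
            rw [htr]
            simp [add_comm])
          (by rintro (j | j) <;> exact hsG)
        omega
      set n : ℕ := (degs k S φ).toNat + 1 with hn
      have hn2 : degs k S φ < n := by
        have := Int.self_le_toNat (degs k S φ)
        rw [hn]
        push_cast
        linarith
      have hdeg : degs k S ((-(n : ℤ), s) :: φ) < 0 := by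
        have : degs k S ((-(n : ℤ), s) :: φ) =
            -(n : ℤ) * (Idx (Sum.elim (fun _ : Unit => s) S) k : ℤ) + degs k S φ := by
          simp [degs]
        rw [this]
        nlinarith [(Nat.cast_nonneg n : (0 : ℤ) ≤ n)]
      have hNz : ∀ m : ℤ, Nzl ((m, s) :: φ) := by
        intro m p hp
        rcases List.mem_cons.1 hp with rfl | hp
        · exact hsN
        · exact hφ p hp
      have hbot := hneg k K (Fin d) S (fun _ => hsN) (by rw [htr]; simp) _ (hNz _) hdeg
      have hstep : ∀ j : ℕ, Module.Finite k (Hs k ((-((j + 1 : ℕ) : ℤ), s) :: φ)) →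
          Module.Finite k (Hs k ((-(j : ℤ), s) :: φ)) := by
        intro j hj
        rw [← Hs_succ] at hj
        have hNzup : Nzl (upl (Gen fun _ : Unit => s) ((-(j : ℤ), s) :: φ)) := by
          intro p hp
          unfold upl at hp
          obtain ⟨q, hq, rfl⟩ := List.mem_map.1 hp
          exact hup q.2 (hNz _ q hq)
        have hfin : Module.Finite (kU k (genU fun _ : Unit => s))
            (Hs (kU k (genU fun _ : Unit => s))
              (upl (Gen fun _ : Unit => s) ((-(j : ℤ), s) :: φ))) :=
          ih _ _ htr' _ hNzup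
        exact (d3 k K _ s _ _ hsN (hNz _) hU hind hfin hj).1
      have hall : ∀ i : ℕ, Module.Finite k (Hs k ((-((n - i : ℕ) : ℤ), s) :: φ)) := by
        intro i
        induction i with
        | zero =>
          rw [Nat.sub_zero, hbot]
          infer_instance
        | succ i ihi =>
          rcases Nat.lt_or_ge i n with h | h
          · apply hstep
            rwa [show n - (i + 1) + 1 = n - i by omega]
          · rwa [show n - (i + 1) = n - i by omega]
      have h0 := hall n
      have h1 : Hs k ((-((n - n : ℕ) : ℤ), s) :: φ) = Hs k φ := by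
        apply Hs_congr
        intro v
        rw [val_cons]
        simp
      rwa [h1] at h0
  intro k K _ _ _ _ _ φ hφ
  have h := trdeg_lt_aleph0 k K
  obtain ⟨d, hd⟩ := Cardinal.lt_aleph0.1 h
  exact key d k K hd φ hφ

end Pool.Agent.H90.SCD
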