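import Pool.Agent.H19.SCD.TargetsD

/-!
Module NEG: negative degree.
-/

set_option autoImplicit false

namespace Pool.Agent.H90.SCD

open SC

lemma val_nil {k K : Type} [Field k] [Field K] [Algebra k K] (v : DV k K) :
    v.val ([] : List (ℤ × Sys K)) = 0 := by
  simp [DV.val]

lemma val_cons {k K : Type} [Field k] [Field K] [Algebra k K] (v : DV k K) (p : ℤ × Sys K)
    (φ : List (ℤ × Sys K)) : v.val (p :: φ) = p.1 * v.mo p.2 + v.val φ := by
  simp [DV.val]

section

variable {k K J : Type} [Field k] [CharZero k] [Field K] [Algebra k K]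
  [Algebra.EssFiniteType k K] [Fintype J] (S : J → Sys K)

lemma degs_eq (h9 : T_M9) (hS : ∀ j, (S j).Nz)
    (htr : Algebra.trdeg k K = (Fintype.card J + 1 : ℕ)) (φ : List (ℤ × Sys K)) (hφ : Nzl φ) :
    (Function.support fun v : DV k K => v.val φ * (Idx (fun j => v.res (S j)) k : ℤ)).Finite ∧
      degs k S φ = - ∑ᶠ v : DV k K, v.val φ * (Idx (fun j => v.res (S j)) k : ℤ) := by
  induction φ with
  | nil =>
    simp only [val_nil, zero_mul]
    refine ⟨?_, ?_⟩
    · simp
    · simp [degs]
  | cons p φ ih =>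
    obtain ⟨ih1, ih2⟩ := ih fun q hq => hφ q (List.mem_cons_of_mem _ hq)
    obtain ⟨h1, h2⟩ := h9 k K J S p.2 hS (hφ p List.mem_cons_self) htr
    have h3 : (Function.support fun v : DV k K =>
        v.mo p.2 * (Idx (fun j => v.res (S j)) k : ℤ)).Finite := by
      refine h1.subset fun v hv => ?_
      rw [Function.mem_support] at hv
      refine ⟨left_ne_zero_of_mul hv, ?_⟩
      have := right_ne_zero_of_mul hv
      exact_mod_cast this
    have h4 : (Function.support fun v : DV k K =>
        p.1 * (v.mo p.2 * (Idx (fun j => v.res (S j)) k : ℤ))).Finite := by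
      refine h3.subset fun v hv => ?_
      rw [Function.mem_support] at hv ⊢
      exact right_ne_zero_of_mul hv
    have h5 : (fun v : DV k K => v.val (p :: φ) * (Idx (fun j => v.res (S j)) k : ℤ)) =
        fun v => p.1 * (v.mo p.2 * (Idx (fun j => v.res (S j)) k : ℤ)) +
          v.val φ * (Idx (fun j => v.res (S j)) k : ℤ) := by
      funext v
      rw [val_cons]
      ring
    refine ⟨?_, ?_⟩
    · rw [h5]
      exact (h4.union ih1).subset (Function.support_add _ _)
    · rw [h5, finsum_add_distrib h4 ih1, ← mul_finsum]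
      have h6 : degs k S (p :: φ) =
          p.1 * (Idx (Sum.elim (fun _ : Unit => p.2) S) k : ℤ) + degs k S φ := by
        simp [degs]
      rw [h6, ih2, h2]
      ring

end

theorem neg (h8 : T_M8) (h9 : T_M9) : T_NEG := by
  intro k K J _ _ _ _ _ _ S hS htr φ hφ hneg
  rw [Submodule.eq_bot_iff]
  intro g hg
  by_contra hg0
  obtain ⟨h1, h2⟩ := degs_eq S h9 hS htr φ hφ
  obtain ⟨h3, h4⟩ := h8 k K J S hS htr g
  have h5 : (Function.support fun v : DV k K =>
      v.ord g * (Idx (fun j => v.res (S j)) k : ℤ)).Finite := by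
    refine h3.subset fun v hv => ?_
    rw [Function.mem_support] at hv
    refine ⟨left_ne_zero_of_mul hv, ?_⟩
    have := right_ne_zero_of_mul hv
    exact_mod_cast this
  have h6 : ∑ᶠ v : DV k K, v.val φ * (Idx (fun j => v.res (S j)) k : ℤ) ≤
      ∑ᶠ v : DV k K, v.ord g * (Idx (fun j => v.res (S j)) k : ℤ) := by
    refine finsum_le_finsum' h1 h5 fun v => ?_
    have h7 : v.val φ ≤ v.ord g := (hg v).resolve_left hg0
    exact mul_le_mul_of_nonneg_right h7 (by positivity)
  rw [h4] at h6
  rw [h2] at hneg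
  linarith

end Pool.Agent.H90.SCD
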